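import Pool.Agent.Helper8_Eng.Lra

/-!
# Squad ENG: module LRK
-/

set_option autoImplicit false

namespace Pool.Agent.Eng.H8

open FiniteField Finset

section

variable {F K : Type} [Field F] [Finite F] [Field K] [Algebra F K] [FiniteDimensional F K]

theorem pow_card_finrank (x : K) : x ^ (Nat.card F ^ Module.finrank F K) = x := by
  have := Fintype.ofFinite F
  have : Finite K := Module.finite_of_finite F
  have := Fintype.ofFinite K
  rw [Nat.card_eq_fintype_card, ← Module.card_eq_pow_finrank]
  exact pow_card x

theorem pow_add_finrank (n : ℕ) (hn : Module.finrank F K = n) (x : K) (j : ℕ) :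
    x ^ (Nat.card F ^ (j + n)) = x ^ (Nat.card F ^ j) := by
  rw [pow_add, mul_comm, pow_mul, ← hn, pow_card_finrank]

theorem pow_mod (n : ℕ) (hn : Module.finrank F K = n) (x : K) (j : ℕ) :
    x ^ (Nat.card F ^ j) = x ^ (Nat.card F ^ (j % n)) := by
  conv_lhs => rw [← Nat.mod_add_div j n]
  induction j / n with
  | zero => simp
  | succ k ih =>
    rw [Nat.mul_succ, ← add_assoc, pow_add_finrank n hn]
    exact ih

theorem pow_val_add (n : ℕ) [NeZero n] (hn : Module.finrank F K = n) (x : K) (i j : ZMod n) :
    x ^ (Nat.card F ^ (i + j).val) = (x ^ (Nat.card F ^ j.val)) ^ (Nat.card F ^ i.val) := by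
  rw [ZMod.val_add, ← pow_mod n hn, ← pow_mul, ← pow_add, add_comm]

/-- action of Frobenius on the conjugates -/
theorem cj_frob (n : ℕ) [NeZero n] (hn : Module.finrank F K = n) (lam : K) (i j : ZMod n) :
    (cj F K n lam j) ^ (Nat.card F ^ i.val) = cj F K n lam (i + j) := by
  unfold cj
  exact (pow_val_add n hn lam i j).symm

theorem ell_frob (n m : ℕ) [NeZero n] (hn : Module.finrank F K = n) (lam : K) (i j : ZMod n) :
    (ell m (cj F K n lam) j) ^ (Nat.card F ^ i.val) = ell m (cj F K n lam) (i + j) := by
  obtain ⟨s, hs⟩ := exists_frob F K i.val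
  have hc : ∀ k, s (cj F K n lam k) = cj F K n lam (i + k) := fun k => by
    rw [hs, cj_frob n hn]
  rw [← hs]
  unfold ell
  rw [map_mul, map_add, map_add, map_inv₀, map_pow, map_neg, map_one, hc, map_prod]
  congr 1
  have h2 : ∀ k, s ((1 + cj F K n lam j * cj F K n lam k) / (cj F K n lam j - cj F K n lam k)) =
      (1 + cj F K n lam (i + j) * cj F K n lam (i + k)) /
        (cj F K n lam (i + j) - cj F K n lam (i + k)) := by
    intro k
    rw [map_div₀, map_add, map_one, map_mul, map_sub, hc, hc]
  simp_rw [h2]
  apply Finset.prod_bij (fun k _ => i + k)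
  · intro k hk
    simp only [mem_erase, mem_univ, and_true] at hk ⊢
    intro h
    exact hk (add_left_cancel h)
  · intro k _ l _ h
    exact add_left_cancel h
  · intro k hk
    refine ⟨k - i, ?_, by ring⟩
    simp only [mem_erase, mem_univ, and_true] at hk ⊢
    intro h
    apply hk
    rw [← h]
    ring
  · intro k _
    rfl

theorem bmat_frob (n m : ℕ) [NeZero n] (hn : Module.finrank F K = n) (lam : K) (i j : ZMod n) :
    (bmat m (cj F K n lam) 0 j) ^ (Nat.card F ^ i.val) =
      bmat m (cj F K n lam) i (i + j) := by
  obtain ⟨s, hs⟩ := exists_frob F K i.val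
  have hc : ∀ k, s (cj F K n lam k) = cj F K n lam (i + k) := fun k => by
    rw [hs, cj_frob n hn]
  have he : ∀ k, s (ell m (cj F K n lam) k) = ell m (cj F K n lam) (i + k) := fun k => by
    rw [hs, ell_frob n m hn]
  rw [← hs]
  unfold bmat
  rw [map_div₀, map_sub, map_add, map_one, map_mul, hc, hc, he, add_zero]
  congr 2
  by_cases h : (0 : ZMod n) = j
  · subst h
    simp
  · have h' : i ≠ i + j := by
      intro h2
      exact h (left_eq_add.1 h2).symm
    simp [h, h']

end

/-- the operator with coefficients `β` -/
theorem exists_op {F K : Type} [Field F] [Finite F] [Field K] [Algebra F K]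
    [FiniteDimensional F K] (n : ℕ) [NeZero n] (β : ZMod n → K) :
    ∃ b : K →ₗ[F] K, ∀ x, b x = ∑ j, β j * x ^ (Nat.card F ^ j.val) := by
  choose s hs using fun j : ZMod n => exists_frob F K j.val
  refine ⟨∑ j, (LinearMap.mulLeft F (β j)) ∘ₗ (s j).toLinearMap, fun x => ?_⟩
  rw [LinearMap.sum_apply]
  apply Finset.sum_congr rfl
  intro j _
  simp [hs]

/-- independence of the powers of Frobenius -/
theorem indep {F K : Type} [Field F] [Finite F] [Field K] [Algebra F K]
    (n : ℕ) [NeZero n] (lam : K)
    (hinj : Function.Injective (cj F K n lam)) (β : ZMod n → K)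
    (h : ∀ x : K, ∑ j, β j * x ^ (Nat.card F ^ j.val) = 0) : ∀ j, β j = 0 := by
  have h1 := (linearIndependent_monoidHom K K).comp
    (fun j : ZMod n => (powMonoidHom (Nat.card F ^ j.val) : K →* K)) (by
      intro i j hij
      apply hinj
      have := DFunLike.congr_fun hij lam
      exact this)
  rw [Fintype.linearIndependent_iff] at h1
  apply h1 β
  funext x
  rw [Finset.sum_apply]
  simpa using h x

/-- (LRK) -/
theorem lrk (hlbm : LbmStmt) : LrkStmt := by
  intro F K _ _ _ _ _ m lam hm hn hadj hnorm
  obtain ⟨hinj, hprod, hne, hell⟩ := lra F K m lam hm hn hadj hnorm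
  have hlam0 : lam ≠ 0 := by
    rintro rfl
    rw [Algebra.norm_zero] at hnorm
    exact zero_ne_one hnorm
  set c := cj F K (2 * m + 1) lam with hc
  have hB := hlbm (ZMod (2 * m + 1)) K m c (ZMod.card _) hm hinj hprod hne hell
  set β : ZMod (2 * m + 1) → K := fun j => bmat m c 0 j with hβ
  obtain ⟨b, hb⟩ := exists_op (F := F) (2 * m + 1) β
  have hc0 : c 0 = lam := by
    rw [hc]
    unfold cj
    simp
  have hβne : ∀ j : ZMod (2 * m + 1), j ≠ 0 → β j ≠ 0 := by
    intro j hj
    rw [hβ]
    change bmat m c 0 j ≠ 0
    unfold bmat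
    rw [if_neg (Ne.symm hj), sub_zero]
    exact div_ne_zero (hell j) (hne 0 j)
  have hbb : ∀ x, b (b x) = lam * b (lam * x) := by
    intro x
    have h1 : ∀ j : ZMod (2 * m + 1), (b x) ^ (Nat.card F ^ j.val) =
        ∑ k, bmat m c j (j + k) * x ^ (Nat.card F ^ (j + k).val) := by
      intro j
      obtain ⟨s, hs⟩ := exists_frob F K j.val
      rw [← hs, hb x, map_sum]
      apply Finset.sum_congr rfl
      intro k _
      rw [map_mul, hs, hs, hβ, pow_val_add (2 * m + 1) hn]
      congr 1
      exact bmat_frob (2 * m + 1) m hn lam j k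
    have h2 : ∀ j : ZMod (2 * m + 1), (b x) ^ (Nat.card F ^ j.val) =
        ∑ l, bmat m c j l * x ^ (Nat.card F ^ l.val) := by
      intro j
      rw [h1 j]
      exact Fintype.sum_equiv (Equiv.addLeft j) _ _ (fun k => rfl)
    rw [hb (b x)]
    simp_rw [h2, Finset.mul_sum]
    rw [Finset.sum_comm, hb (lam * x), Finset.mul_sum]
    apply Finset.sum_congr rfl
    intro l _
    have h3 := congrFun (congrFun hB 0) l
    rw [Matrix.mul_apply, Matrix.mul_diagonal, Matrix.diagonal_mul] at h3
    have h4 : (lam * x) ^ (Nat.card F ^ l.val) = c l * x ^ (Nat.card F ^ l.val) := by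
      rw [mul_pow]
      rfl
    rw [h4]
    calc ∑ j, β j * (bmat m c j l * x ^ (Nat.card F ^ l.val))
        = (∑ j, bmat m c 0 j * bmat m c j l) * x ^ (Nat.card F ^ l.val) := by
          rw [Finset.sum_mul]
          apply Finset.sum_congr rfl
          intro j _
          rw [hβ]
          ring
      _ = lam * (β l * (c l * x ^ (Nat.card F ^ l.val))) := by
          rw [h3, hc0, hβ]
          ring
  have h10 : (1 : ZMod (2 * m + 1)) ≠ 0 := by
    have : Fact (1 < 2 * m + 1) := ⟨by omega⟩
    exact one_ne_zero
  have hval1 : (1 : ZMod (2 * m + 1)).val = 1 := by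
    have : Fact (1 < 2 * m + 1) := ⟨by omega⟩
    exact ZMod.val_one _
  have hval2 : (2 : ZMod (2 * m + 1)).val = 2 := by
    have : ((2 : ℕ) : ZMod (2 * m + 1)).val = 2 := ZMod.val_natCast_of_lt (by omega)
    simpa using this
  have h20 : (2 : ZMod (2 * m + 1)) ≠ 0 := by
    intro h
    rw [h] at hval2
    simp at hval2
  refine ⟨b, hbb, ?_, ?_⟩
  · intro x hx
    by_contra hx0
    -- the kernel is stable under multiplication by `lam`
    have hst : ∀ z, b z = 0 → b (lam * z) = 0 := by
      intro z hz
      have h1 := hbb z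
      rw [hz, map_zero] at h1
      exact (mul_eq_zero.1 h1.symm).resolve_left hlam0
    have hall : ∀ μ : K, ∀ z, b z = 0 → b (μ * z) = 0 := by
      intro μ
      have hμ : μ ∈ Algebra.adjoin F {lam} := by
        rw [hadj]
        trivial
      induction hμ using Algebra.adjoin_induction with
      | mem y hy =>
        rw [Set.mem_singleton_iff] at hy
        rw [hy]
        exact hst
      | algebraMap r =>
        intro z hz
        rw [← Algebra.smul_def, map_smul, hz, smul_zero]
      | add y y' _ _ h1 h2 =>
        intro z hz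
        rw [add_mul, map_add, h1 z hz, h2 z hz, add_zero]
      | mul y y' _ _ h1 h2 =>
        intro z hz
        rw [mul_assoc]
        exact h1 _ (h2 z hz)
    have hb0 : ∀ z, b z = 0 := by
      intro z
      have := hall (z / x) x hx
      rwa [div_mul_cancel₀ z hx0] at this
    have := indep (F := F) (2 * m + 1) lam hinj β (fun z => by rw [← hb z]; exact hb0 z) 1
    exact hβne 1 h10 this
  · intro μ r hμ
    -- compare coefficients
    have h1 := indep (F := F) (2 * m + 1) lam hinj
      (fun j => β j * (μ ^ (Nat.card F ^ j.val) - algebraMap F K r * μ)) (fun z => by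
        have h2 := hμ z
        rw [hb, hb, Algebra.smul_def, Finset.mul_sum, Finset.mul_sum] at h2
        rw [← sub_eq_zero, ← Finset.sum_sub_distrib] at h2
        rw [← h2]
        apply Finset.sum_congr rfl
        intro j _
        rw [mul_pow]
        ring)
    have h2 : μ ^ Nat.card F = algebraMap F K r * μ := by
      have := (mul_eq_zero.1 (h1 1)).resolve_left (hβne 1 h10)
      rw [hval1, pow_one] at this
      linear_combination this
    have h3 : μ ^ (Nat.card F ^ 2) = algebraMap F K r * μ := by
      have := (mul_eq_zero.1 (h1 2)).resolve_left (hβne 2 h20)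
      rw [hval2] at this
      linear_combination this
    by_cases hμ0 : μ = 0
    · exact ⟨0, by simp [hμ0]⟩
    have hFq : ∀ a : F, a ^ Nat.card F = a := by
      intro a
      have := Fintype.ofFinite F
      rw [Nat.card_eq_fintype_card]
      exact pow_card a
    have h4 : algebraMap F K r * (algebraMap F K r * μ) = algebraMap F K r * μ := by
      calc algebraMap F K r * (algebraMap F K r * μ)
          = (algebraMap F K r) ^ Nat.card F * μ ^ Nat.card F := by rw [h2, ← map_pow, hFq]
        _ = (μ ^ Nat.card F) ^ Nat.card F := by rw [← mul_pow, h2]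
        _ = μ ^ (Nat.card F ^ 2) := by rw [← pow_mul, pow_two]
        _ = algebraMap F K r * μ := h3
    have hr : algebraMap F K r = 0 ∨ algebraMap F K r = 1 := by
      by_cases hr0 : algebraMap F K r = 0
      · exact Or.inl hr0
      · right
        have h5 := mul_left_cancel₀ hr0 h4
        exact mul_right_cancel₀ hμ0 (by rw [h5, one_mul])
    have hcard : 0 < Nat.card F := Nat.card_pos
    rcases hr with h5 | h5
    · rw [h5, zero_mul] at h2
      exact absurd (pow_eq_zero_iff hcard.ne' |>.1 h2) hμ0
    · rw [h5, one_mul] at h2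
      -- `μ` is fixed by Frobenius
      have := Fintype.ofFinite F
      by_contra hcon
      have hq1 : 1 < Fintype.card F := Fintype.one_lt_card
      classical
      have h6 := Polynomial.card_roots' (Polynomial.X ^ Fintype.card F - Polynomial.X : Polynomial K)
      have hnd : (Polynomial.X ^ Fintype.card F - Polynomial.X : Polynomial K).natDegree =
          Fintype.card F := FiniteField.X_pow_card_sub_X_natDegree_eq K hq1
      have hpne : (Polynomial.X ^ Fintype.card F - Polynomial.X : Polynomial K) ≠ 0 :=
        FiniteField.X_pow_card_sub_X_ne_zero K hq1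
      have hsub : insert μ (Finset.univ.image (algebraMap F K)) ⊆
          (Polynomial.X ^ Fintype.card F - Polynomial.X : Polynomial K).roots.toFinset := by
        intro z hz
        rw [Multiset.mem_toFinset, Polynomial.mem_roots hpne]
        rcases Finset.mem_insert.1 hz with h | h
        · rw [h, Polynomial.IsRoot, Polynomial.eval_sub, Polynomial.eval_pow, Polynomial.eval_X,
            ← Nat.card_eq_fintype_card, h2, sub_self]
        · obtain ⟨a, -, rfl⟩ := Finset.mem_image.1 h
          rw [Polynomial.IsRoot, Polynomial.eval_sub, Polynomial.eval_pow, Polynomial.eval_X,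
            ← map_pow, pow_card, sub_self]
      have h7 := (Finset.card_le_card hsub).trans (Multiset.toFinset_card_le _)
      rw [Finset.card_insert_of_notMem, Finset.card_image_of_injective _
        (algebraMap F K).injective, Finset.card_univ] at h7
      · omega
      · intro h
        obtain ⟨a, -, ha⟩ := Finset.mem_image.1 h
        exact hcon ⟨a, ha.symm⟩

end Pool.Agent.Eng.H8
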