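import Pool.Agent.Helper6_Eng.Stmts

/-!
# Squad ENG: module LRA
-/

set_option autoImplicit false

namespace Pool.Agent.Eng.H8

open FiniteField

variable {F K : Type} [Field F] [Finite F] [Field K] [Algebra F K]

/-- the powers of Frobenius -/
theorem exists_frob (F K : Type) [Field F] [Finite F] [Field K] [Algebra F K] (i : ℕ) :
    ∃ s : K →ₐ[F] K, ∀ x, s x = x ^ (Nat.card F ^ i) := by
  have := Fintype.ofFinite F
  refine ⟨(frobeniusAlgHom F K) ^ i, fun x => ?_⟩
  rw [AlgHom.coe_pow, coe_frobeniusAlgHom, pow_iterate, Nat.card_eq_fintype_card]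

theorem frob_inj (i : ℕ) {x y : K} (h : x ^ (Nat.card F ^ i) = y ^ (Nat.card F ^ i)) : x = y := by
  obtain ⟨s, hs⟩ := exists_frob F K i
  rw [← hs, ← hs] at h
  exact s.toRingHom.injective h

theorem dvd_of_fix [FiniteDimensional F K] {lam : K} (hadj : Algebra.adjoin F {lam} = ⊤) (d : ℕ)
    (h : lam ^ (Nat.card F ^ d) = lam) : Module.finrank F K ∣ d := by
  have := Fintype.ofFinite F
  have : Finite K := Module.finite_of_finite F
  rw [← orderOf_frobeniusAlgHom F K]
  apply orderOf_dvd_of_pow_eq_one
  apply AlgHom.ext_of_adjoin_eq_top hadj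
  intro x hx
  rw [Set.mem_singleton_iff] at hx
  rw [hx, AlgHom.coe_pow, coe_frobeniusAlgHom, pow_iterate, AlgHom.one_apply,
    ← Nat.card_eq_fintype_card]
  exact h

theorem pow_split (lam : K) {i j : ℕ} (h : i ≤ j) :
    lam ^ (Nat.card F ^ j) = (lam ^ (Nat.card F ^ (j - i))) ^ (Nat.card F ^ i) := by
  rw [← pow_mul, ← pow_add]
  congr 2
  omega

theorem cj_inj [FiniteDimensional F K] (m : ℕ) {lam : K}
    (hn : Module.finrank F K = 2 * m + 1) (hadj : Algebra.adjoin F {lam} = ⊤) :
    Function.Injective (cj F K (2 * m + 1) lam) := by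
  have key : ∀ i j : ZMod (2 * m + 1), i.val ≤ j.val →
      cj F K (2 * m + 1) lam i = cj F K (2 * m + 1) lam j → i = j := by
    intro i j hij h
    unfold cj at h
    rw [pow_split (F := F) lam hij] at h
    have h1 := frob_inj (F := F) i.val h
    have h2 := dvd_of_fix hadj _ h1.symm
    rw [hn] at h2
    have h3 : j.val < 2 * m + 1 := ZMod.val_lt j
    have h4 := Nat.eq_zero_of_dvd_of_lt h2 (by omega)
    apply ZMod.val_injective
    omega
  intro i j h
  rcases le_total i.val j.val with hij | hij
  · exact key i j hij h
  · exact (key j i hij h.symm).symm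

/-- (LRA) -/
theorem lra : LraStmt := by
  intro F K _ _ _ _ _ m lam hm hn hadj hnorm
  have hF := Fintype.ofFinite F
  have hK : Finite K := Module.finite_of_finite F
  have hlam0 : lam ≠ 0 := by
    rintro rfl
    rw [Algebra.norm_zero] at hnorm
    exact zero_ne_one hnorm
  -- Frobenius
  obtain ⟨s, hs⟩ := exists_frob F K 1
  simp only [pow_one] at hs
  -- if the square of Frobenius fixes `lam`
  have hno : ∀ d : ℕ, s (s (lam ^ (Nat.card F ^ d))) ≠ lam ^ (Nat.card F ^ d) := by
    intro d h
    rw [hs, hs, ← pow_mul, ← pow_mul] at h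
    have h1 : lam ^ (Nat.card F ^ d * (Nat.card F * Nat.card F)) =
        (lam ^ (Nat.card F ^ 2)) ^ (Nat.card F ^ d) := by
      rw [← pow_mul]
      congr 1
      ring
    rw [h1] at h
    have h2 := dvd_of_fix hadj _ (frob_inj (F := F) d h)
    rw [hn] at h2
    have := Nat.le_of_dvd (by norm_num) h2
    omega
  have hinj := cj_inj m hn hadj
  have hne : ∀ i j, 1 + cj F K (2 * m + 1) lam i * cj F K (2 * m + 1) lam j ≠ 0 := by
    have key : ∀ i j : ZMod (2 * m + 1), i.val ≤ j.val →
        1 + cj F K (2 * m + 1) lam i * cj F K (2 * m + 1) lam j ≠ 0 := by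
      intro i j hij h
      unfold cj at h
      rw [pow_split (F := F) lam hij] at h
      set d := j.val - i.val with hd
      obtain ⟨si, hsi⟩ := exists_frob F K i.val
      obtain ⟨sd, hsd⟩ := exists_frob F K d
      rw [← hsi, ← hsi, ← map_mul, ← map_one si, ← map_add] at h
      have h0 : 1 + lam * lam ^ (Nat.card F ^ d) = 0 := by
        apply si.toRingHom.injective
        rw [map_zero]
        exact h
      have h1 : lam * lam ^ (Nat.card F ^ d) = -1 := by linear_combination h0
      -- apply the `d`-th power of Frobenius
      have h2 : sd lam * sd (sd lam) = -1 := by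
        have := congrArg sd h1
        rw [map_mul, map_neg, map_one, ← hsd] at this
        exact this
      rw [← hsd] at h1
      have h3 : sd (sd lam) = lam := by
        have h4 : sd lam ≠ 0 := by
          intro h5
          rw [h5, mul_zero] at h1
          exact (neg_ne_zero.2 one_ne_zero) h1.symm
        apply mul_left_cancel₀ h4
        rw [h2, mul_comm, h1]
      rw [hsd, hsd, ← pow_mul, ← pow_add] at h3
      have h4 := dvd_of_fix hadj _ h3
      rw [hn] at h4
      have h5 : 2 * m + 1 ∣ d := by
        have h6 : 2 * m + 1 ∣ 2 * d := by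
          rw [two_mul d]
          exact h4
        exact (Nat.Coprime.dvd_of_dvd_mul_left (by simp) h6)
      have h6 : j.val < 2 * m + 1 := ZMod.val_lt j
      have h7 : d = 0 := Nat.eq_zero_of_dvd_of_lt h5 (by omega)
      -- `lam ^ 2 = -1`
      rw [hsd, h7, pow_zero, pow_one] at h1
      have h8 : s lam * s lam = lam * lam := by
        rw [← map_mul, h1, map_neg, map_one]
      have h9 := mul_self_eq_mul_self_iff.1 h8
      have h10 : s (s lam) = lam := by
        rcases h9 with h | h
        · rw [h, h]
        · rw [h, map_neg, h, neg_neg]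
      exact hno 0 (by simpa using h10)
    intro i j
    rcases le_total i.val j.val with hij | hij
    · exact key i j hij
    · rw [mul_comm]
      exact key j i hij
  refine ⟨hinj, ?_, hne, ?_⟩
  · have h1 := algebraMap_norm_eq_prod_pow F K lam
    rw [hnorm, map_one, hn] at h1
    rw [h1]
    unfold cj
    rw [Finset.prod_range]
    rfl
  · intro j
    unfold ell
    apply mul_ne_zero
    · intro h
      set x := cj F K (2 * m + 1) lam j with hx
      have hx0 : x ≠ 0 := pow_ne_zero _ hlam0
      have h1 : x * x + (-1) ^ m * x + 1 = 0 := by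
        have := congrArg (fun t => t * x) h
        simp only [zero_mul, add_mul, inv_mul_cancel₀ hx0] at this
        linear_combination this
      have h2 : s x * s x + (-1) ^ m * s x + 1 = 0 := by
        have := congrArg s h1
        simpa using this
      have h3 : (s x - x) * (s x * x - 1) = 0 := by
        linear_combination x * h2 - s x * h1
      have h10 : s (s x) = x := by
        rcases mul_eq_zero.1 h3 with h4 | h4
        · have h5 : s x = x := by linear_combination h4
          rw [h5, h5]
        · have h5 : s x * x = 1 := by linear_combination h4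
          have h6 : s (s x) * s x = 1 := by
            rw [← map_mul, h5, map_one]
          have h7 : s x ≠ 0 := by
            intro h8
            rw [h8, zero_mul] at h5
            exact zero_ne_one h5
          apply mul_right_cancel₀ h7
          rw [h6, mul_comm, h5]
      exact hno j.val h10
    · apply Finset.prod_ne_zero_iff.2
      intro k hk
      apply div_ne_zero (hne j k)
      rw [sub_ne_zero]
      intro h
      exact (Finset.mem_erase.1 hk).1 (hinj h).symm

end Pool.Agent.Eng.H8
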