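import Pool.Agent.Helper8_Eng.Lrk

/-!
# Squad ENG: module LRI
-/

set_option autoImplicit false

namespace Pool.Agent.Eng.H8

/-- (LRI) -/
theorem lri (hlrk : LrkStmt) (hbr : BraidStmt) (hltr : LtrStmt) (hinj : PdInjStmt) : LriStmt := by
  intro F K _ _ _ _ _ m p k lam hm hn hadj hnorm hp hp2 hdiv
  obtain ⟨b, hbb, hker, hscal⟩ := hlrk F K m lam hm hn hadj hnorm
  have hlam0 : lam ≠ 0 := by
    rintro rfl
    rw [Algebra.norm_zero] at hnorm
    exact zero_ne_one hnorm
  -- the two linear maps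
  let w0 : K →ₗ[F] K := LinearMap.mulLeft F lam
  let z0 : K →ₗ[F] K := (LinearMap.mulLeft F lam⁻¹) ∘ₗ b
  have hw0inj : Function.Injective w0 := fun x y h => mul_left_cancel₀ hlam0 h
  have hz0inj : Function.Injective z0 := by
    intro x y h
    have h1 : b x = b y := mul_left_cancel₀ (inv_ne_zero hlam0) h
    have h2 := hker (x - y) (by rw [map_sub, h1, sub_self])
    exact sub_eq_zero.1 h2
  let w1 : K ≃ₗ[F] K := LinearEquiv.ofInjectiveEndo w0 hw0inj
  let z1 : K ≃ₗ[F] K := LinearEquiv.ofInjectiveEndo z0 hz0inj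
  have hw1 : ∀ x, w1 x = lam * x := fun x => rfl
  have hz1 : ∀ x, z1 x = lam⁻¹ * b x := fun x => rfl
  have hdetw : LinearEquiv.det w1 = 1 := by
    apply Units.ext
    rw [LinearEquiv.coe_det, Units.val_one]
    have h1 : (w1 : K →ₗ[F] K) = LinearMap.mulLeft F lam := by
      ext x
      rfl
    rw [h1]
    exact hnorm
  have hbraid : z1 * w1 * z1 = w1 * z1 * w1 := by
    ext x
    change lam⁻¹ * b (lam * (lam⁻¹ * b x)) = lam * (lam⁻¹ * b (lam * x))
    rw [mul_inv_cancel_left₀ hlam0, mul_inv_cancel_left₀ hlam0, hbb, inv_mul_cancel_left₀ hlam0]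
  have hdetz : LinearEquiv.det z1 = 1 := by
    have h1 := congrArg LinearEquiv.det hbraid
    rw [map_mul, map_mul, map_mul, map_mul, hdetw, mul_one, one_mul, mul_one] at h1
    exact mul_eq_left.1 h1
  let w : SpecialLinearGroup F K := ⟨w1, hdetw⟩
  let z : SpecialLinearGroup F K := ⟨z1, hdetz⟩
  have hbr2 : z * w * z = w * z * w := Subtype.ext hbraid
  have hwpow : ∀ (n : ℕ) (x : K), (w ^ n : SpecialLinearGroup F K) x = lam ^ n * x := by
    intro n
    induction n with
    | zero => intro x; simp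
    | succ n ih =>
      intro x
      rw [pow_succ]
      change (w ^ n : SpecialLinearGroup F K) (lam * x) = _
      rw [ih]
      ring
  have hPD : PD (PSLV F K) (p ^ k) := by
    apply hbr (SpecialLinearGroup F K) (Subgroup.center _) w z (p ^ k) hbr2
    intro d hd hmem
    rw [SpecialLinearGroup.mem_center_iff] at hmem
    obtain ⟨c, -, hc⟩ := hmem
    -- `z w ^ (2d) = c w ^ (2d) z`
    have h1 : ∀ x : K, z ((w ^ (2 * d) : SpecialLinearGroup F K) x) =
        c • ((w ^ (2 * d) : SpecialLinearGroup F K) (z x)) := by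
      intro x
      have h2 := LinearMap.congr_fun hc ((w ^ (2 * d) : SpecialLinearGroup F K) (z x))
      rw [LinearMap.smul_apply, LinearMap.id_apply] at h2
      rw [← h2]
      change _ = (z * w ^ (2 * d) * z⁻¹ * (w ^ (2 * d))⁻¹ : SpecialLinearGroup F K)
        ((w ^ (2 * d) * z : SpecialLinearGroup F K) x)
      have h3 : (z * w ^ (2 * d) * z⁻¹ * (w ^ (2 * d))⁻¹ * (w ^ (2 * d) * z) :
          SpecialLinearGroup F K) = z * w ^ (2 * d) := by group
      have h4 : (z * w ^ (2 * d) * z⁻¹ * (w ^ (2 * d))⁻¹ : SpecialLinearGroup F K)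
        ((w ^ (2 * d) * z : SpecialLinearGroup F K) x) =
        (z * w ^ (2 * d) * z⁻¹ * (w ^ (2 * d))⁻¹ * (w ^ (2 * d) * z) :
          SpecialLinearGroup F K) x := rfl
      rw [h4, h3]
      rfl
    obtain ⟨a, ha⟩ := hscal (lam ^ (2 * d)) c (fun x => by
      have h2 := h1 x
      rw [hwpow, hwpow] at h2
      change lam⁻¹ * b (lam ^ (2 * d) * x) = c • (lam ^ (2 * d) * (lam⁻¹ * b x)) at h2
      have h3 := congrArg (fun t => lam * t) h2
      rw [mul_inv_cancel_left₀ hlam0, mul_smul_comm] at h3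
      rw [h3]
      congr 1
      rw [mul_left_comm lam, mul_inv_cancel_left₀ hlam0])
    have h5 := hdiv (2 * d) ⟨a, ha⟩
    have hcop : Nat.Coprime (p ^ k) 2 := by
      apply Nat.Coprime.pow_left
      exact (Nat.coprime_primes hp Nat.prime_two).2 hp2
    exact hcop.dvd_of_dvd_mul_left h5
  obtain ⟨e⟩ := hltr F K (2 * m + 1) hn
  exact hinj _ _ e.toMonoidHom (p ^ k) e.injective hPD

end Pool.Agent.Eng.H8
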